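import Mathlib

namespace Pool.Agent.Results.MP_e5a1a5_al.TwoPrimes

variable {G : Type*} [Group G]

/-- `H^g = g⁻¹ H g`. -/
def cj (H : Subgroup G) (g : G) : Subgroup G := H.comap (MulAut.conj g).toMonoidHom

/-- `H ∩ H^x` is an inclusion-minimal member of `{H ∩ H^y : y ∈ G}`. -/
def MinAt (H : Subgroup G) (x : G) : Prop :=
  ∀ y : G, H ⊓ cj H y ≤ H ⊓ cj H x → H ⊓ cj H y = H ⊓ cj H x

lemma cj_mul (H : Subgroup G) {h : G} (hh : h ∈ H) (g : G) : cj H (h * g) = cj H g := by
  ext x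
  simp only [cj, Subgroup.mem_comap, MulEquiv.coe_toMonoidHom, MulAut.conj_apply, mul_inv_rev]
  have e : h * g * x * (g⁻¹ * h⁻¹) = h * (g * x * g⁻¹) * h⁻¹ := by group
  rw [e, Subgroup.mul_mem_cancel_right _ (H.inv_mem hh), Subgroup.mul_mem_cancel_left _ hh]

lemma MinAt.mul_left {H : Subgroup G} {h x : G} (hh : h ∈ H) (hx : MinAt H x) :
    MinAt H (h * x) := by
  intro y hy
  rw [cj_mul H hh] at hy ⊢
  exact hx y hy

lemma exists_minAt [Finite G] (H : Subgroup G) : ∃ x, MinAt H x := by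
  obtain ⟨x, hx⟩ := Finite.exists_min (fun g : G => Nat.card ↥(H ⊓ cj H g))
  exact ⟨x, fun y hy => Subgroup.eq_of_le_of_card_ge hy (hx y)⟩

lemma exists_common [Finite G] {H K : Subgroup G} (h : ∀ g : G, ∃ a ∈ H, ∃ b ∈ K, a * b = g) :
    ∃ x, MinAt H x ∧ MinAt K x := by
  obtain ⟨u, hu⟩ := exists_minAt H
  obtain ⟨v, hv⟩ := exists_minAt K
  obtain ⟨a, ha, b, hb, hab⟩ := h (u * v⁻¹)
  have e : a⁻¹ * u = b * v := by
    rw [inv_mul_eq_iff_eq_mul, ← mul_assoc, hab, inv_mul_cancel_right]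
  refine ⟨a⁻¹ * u, hu.mul_left (H.inv_mem ha), ?_⟩
  rw [e]
  exact hv.mul_left hb

lemma sylow_mul [Finite G] {p q : ℕ} (hp : p.Prime) (hq : q.Prime) (hpq : p ≠ q)
    (hG : (Nat.card G).primeFactors = {p, q}) (P : Sylow p G) (Q : Sylow q G) (g : G) :
    ∃ a ∈ (P : Subgroup G), ∃ b ∈ (Q : Subgroup G), a * b = g := by
  have : Fact p.Prime := ⟨hp⟩
  have : Fact q.Prime := ⟨hq⟩
  have hn : Nat.card G ≠ 0 := Nat.card_pos.ne'
  have h1 := P.card_eq_multiplicity
  have h2 := Q.card_eq_multiplicity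
  have h3 : Nat.card (P : Subgroup G) * Nat.card (Q : Subgroup G) = Nat.card G := by
    rw [h1, h2]
    conv_rhs => rw [← Nat.prod_factorization_pow_eq_self hn]
    rw [Finsupp.prod, Nat.support_factorization, hG, Finset.prod_pair hpq]
  have h4 : Nat.Coprime (Nat.card (P : Subgroup G)) (Nat.card (Q : Subgroup G)) := by
    rw [h1, h2]
    exact Nat.Coprime.pow _ _ ((Nat.coprime_primes hp hq).2 hpq)
  have h5 := Subgroup.isComplement'_of_coprime h3 h4
  obtain ⟨⟨a, b⟩, hab⟩ := h5.2 g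
  exact ⟨a, a.2, b, b.2, hab⟩

/-- Q1 holds for every finite group whose order has at most two prime divisors. -/
theorem result (G : Type*) [Group G] [Finite G] (h : (Nat.card G).primeFactors.card ≤ 2)
    (H : (p : ↥((Nat.card G).primeFactors)) → Sylow (p : ℕ) G) :
    ∃ x : G, ∀ p, MinAt (H p : Subgroup G) x := by
  classical
  by_cases hsub : Subsingleton ↥((Nat.card G).primeFactors)
  · by_cases hne : Nonempty ↥((Nat.card G).primeFactors)
    · obtain ⟨p⟩ := hne
      obtain ⟨x, hx⟩ := exists_minAt (H p : Subgroup G)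
      refine ⟨x, fun q => ?_⟩
      rw [Subsingleton.elim q p]
      exact hx
    · exact ⟨1, fun p => absurd ⟨p⟩ hne⟩
  · rw [not_subsingleton_iff_nontrivial] at hsub
    obtain ⟨p, q, hpq⟩ := hsub
    have hpq' : (p : ℕ) ≠ (q : ℕ) := fun e => hpq (Subtype.ext e)
    have hsubset : ({(p : ℕ), (q : ℕ)} : Finset ℕ) ⊆ (Nat.card G).primeFactors := by
      intro z hz
      rcases Finset.mem_insert.1 hz with rfl | hz
      · exact p.2
      · rw [Finset.mem_singleton.1 hz]; exact q.2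
    have heq : (Nat.card G).primeFactors = {(p : ℕ), (q : ℕ)} := by
      refine (Finset.eq_of_subset_of_card_le hsubset ?_).symm
      rw [Finset.card_pair hpq']
      exact h
    have hp : (p : ℕ).Prime := Nat.prime_of_mem_primeFactors p.2
    have hq : (q : ℕ).Prime := Nat.prime_of_mem_primeFactors q.2
    obtain ⟨x, hx1, hx2⟩ := exists_common (sylow_mul hp hq hpq' heq (H p) (H q))
    refine ⟨x, fun s => ?_⟩
    have hs : (s : ℕ) ∈ ({(p : ℕ), (q : ℕ)} : Finset ℕ) := heq ▸ s.2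
    rcases Finset.mem_insert.1 hs with e | e
    · rw [show s = p from Subtype.ext e]; exact hx1
    · rw [show s = q from Subtype.ext (Finset.mem_singleton.1 e)]; exact hx2

end Pool.Agent.Results.MP_e5a1a5_al.TwoPrimes
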